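import Pool.Agent.Q211.AR.Base
import Pool.Agent.H582AR.Prob

/-!
# The free group of rank two is not algebraically recurrent

The heavy tailed walk on the wreath product of two infinite cyclic groups which is not
algebraically recurrent is lifted to the free group of rank two.
-/

set_option autoImplicit false

open MeasureTheory Pool.Agent.Q211.AR

namespace Pool.Agent.Results.MP_3ace2b_pr.FreeGroupNotAR

open Pool.Agent.H582AR in
theorem strong_nu : Strong Pool.Agent.H582AR.nu := by
  let _ : MeasurableSpace W := ⊤
  have : DiscreteMeasurableSpace W := ⟨fun _ => trivial⟩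
  unfold Strong steps
  filter_upwards [nu_strong] with ω hω
  obtain ⟨n, hn, z, hz, hz0, h⟩ := hω
  refine ⟨n, hn, fun h1 => ?_⟩
  have hle : tail ω n ≤ Pz z hz hz0 := by
    unfold tail
    rw [Subsemigroup.closure_le]
    rintro _ ⟨m, hm, rfl⟩
    exact h m hm
  exact one_notMem_Pz z hz hz0 (hle h1)

/-- The homomorphism onto the wreath product. -/
noncomputable def phi : FreeGroup (Fin 2) →* Pool.Agent.H582AR.W :=
  FreeGroup.lift ![Pool.Agent.H582AR.W.t, Pool.Agent.H582AR.W.a]

theorem phi_surjective : Function.Surjective phi := by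
  rw [← MonoidHom.range_eq_top]
  apply Pool.Agent.H582AR.closure_ta
  · exact ⟨FreeGroup.of 0, by simp [phi]⟩
  · exact ⟨FreeGroup.of 1, by simp [phi]⟩

/-- The free group of rank two is not algebraically recurrent: there is a symmetric probability
measure whose support generates it such that for some `n ≥ 1` the semigroup generated by the walk
from time `n` on is, with positive probability, not the whole group; in fact almost surely the
identity is missing from that semigroup for some `n`. -/
theorem result : ∃ μ : PMF (FreeGroup (Fin 2)), Admissible μ ∧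
    (∃ n : ℕ, 1 ≤ n ∧ 0 < steps μ {ω | tail ω n ≠ ⊤}) ∧
    ∀ᵐ ω ∂(steps μ), ∃ n : ℕ, 1 ≤ n ∧ (1 : FreeGroup (Fin 2)) ∉ tail ω n := by
  obtain ⟨μ, h1, h2⟩ := exists_lift phi phi_surjective Pool.Agent.H582AR.nu
    ⟨Pool.Agent.H582AR.nu_symm, Pool.Agent.H582AR.nu_closure⟩ strong_nu
  refine ⟨μ, h1, ?_, h2⟩
  by_contra hcon
  push Not at hcon
  refine not_AR_of_Strong h2 fun n hn => ?_
  rw [ae_iff]
  exact nonpos_iff_eq_zero.1 (hcon n hn)

end Pool.Agent.Results.MP_3ace2b_pr.FreeGroupNotAR
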